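import Mathlib

namespace Pool.Agent.H.MP_340332_ag
open Polynomial

/-- Locally nilpotent derivations. -/
def IsLND {K B : Type*} [CommRing K] [CommRing B] [Algebra K B] (D : Derivation K B B) : Prop :=
  ∀ a, ∃ n : ℕ, (⇑D)^[n] a = 0

/-- The modified Derksen invariant. -/
def HD (K B : Type*) [CommRing K] [CommRing B] [Algebra K B] : Subalgebra K B :=
  Algebra.adjoin K {f | ∃ D : Derivation K B B, IsLND D ∧ (∃ s, D s = 1) ∧ D f = 0}

/-- The ideal generated by the images of all locally nilpotent derivations. -/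
def imI (K B : Type*) [CommRing K] [CommRing B] [Algebra K B] : Ideal B :=
  Ideal.span {g | ∃ D : Derivation K B B, IsLND D ∧ ∃ f, g = D f}

section HD
variable {K B : Type*} [CommRing K] [CommRing B] [Algebra K B]

def conj (σ : B ≃ₐ[K] B) (D : Derivation K B B) : Derivation K B B :=
  Derivation.mk' (σ.toLinearMap ∘ₗ D.toLinearMap ∘ₗ σ.symm.toLinearMap) fun a b => by
    simp [Derivation.leibniz]

theorem conj_apply (σ : B ≃ₐ[K] B) (D : Derivation K B B) (a : B) :
    conj σ D (σ a) = σ (D a) := by
  change σ (D (σ.symm (σ a))) = _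
  rw [σ.symm_apply_apply]

theorem map_mem_HD (σ : B ≃ₐ[K] B) {f : B} (hf : f ∈ HD K B) : σ f ∈ HD K B := by
  induction hf using Algebra.adjoin_induction with
  | mem x hx =>
    obtain ⟨D, hD, ⟨s, hs⟩, h0⟩ := hx
    refine Algebra.subset_adjoin ⟨conj σ D, fun a => ?_, ⟨σ s, by rw [conj_apply, hs, map_one]⟩,
      by rw [conj_apply, h0, map_zero]⟩
    obtain ⟨a, rfl⟩ := σ.surjective a
    obtain ⟨n, hn⟩ := hD a
    refine ⟨n, ?_⟩
    rw [← (Function.Semiconj.iterate_right (f := σ) (ga := D) (gb := conj σ D)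
      (fun a => (conj_apply σ D a).symm) n) a, hn, map_zero]
  | algebraMap r => rw [AlgEquiv.commutes]; exact Subalgebra.algebraMap_mem _ r
  | add x y _ _ hx hy => rw [map_add]; exact add_mem hx hy
  | mul x y _ _ hx hy => rw [map_mul]; exact mul_mem hx hy

theorem C_mem_HD (a : B) : C a ∈ HD K B[X] := by
  refine Algebra.subset_adjoin ⟨(derivative' (R := B)).restrictScalars K, fun p => ?_,
    ⟨X, by simp⟩, by simp⟩
  exact ⟨p.natDegree + 1, iterate_derivative_eq_zero (Nat.lt_succ_self _)⟩

theorem iter_mul (D : Derivation K B B) (k : ℕ) : ∀ (n l : ℕ) (a b : B), n + l = k →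
    (⇑D)^[n + 1] a = 0 → (⇑D)^[l + 1] b = 0 →
    (⇑D)^[n + l] (a * b) = (k.choose n : B) * ((⇑D)^[n] a * (⇑D)^[l] b) := by
  have hadd : ∀ (j : ℕ) (a b : B), (⇑D)^[j] (a + b) = (⇑D)^[j] a + (⇑D)^[j] b := by
    intro j
    induction j with
    | zero => intro a b; rfl
    | succ j ih => intro a b; simp only [Function.iterate_succ_apply, map_add, ih]
  have h0 : ∀ j : ℕ, (⇑D)^[j] 0 = 0 := fun j => Function.iterate_fixed (map_zero D) j
  induction k with
  | zero =>
    intro n l a b h _ _
    obtain rfl : n = 0 := by omega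
    obtain rfl : l = 0 := by omega
    simp
  | succ k ih =>
    intro n l a b h ha hb
    rw [h, Function.iterate_succ_apply, Derivation.leibniz, smul_eq_mul, smul_eq_mul, hadd]
    rcases n with _ | n
    · have : D a = 0 := ha
      obtain rfl : l = k + 1 := by omega
      have e := ih 0 k a (D b) (by omega) ha hb
      rw [zero_add] at e
      rw [this, mul_zero, h0, e]; simp
    · rcases l with _ | l
      · have : D b = 0 := hb
        obtain rfl : n = k := by omega
        have e := ih n 0 (D a) b (by omega) ha hb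
        rw [add_zero] at e
        rw [this, mul_zero, h0, mul_comm b, e]; simp
      · have e1 := ih (n + 1) l a (D b) (by omega) ha hb
        have e2 := ih n (l + 1) (D a) b (by omega) ha hb
        rw [show n + 1 + l = k by omega] at e1
        rw [show n + (l + 1) = k by omega] at e2
        rw [mul_comm b, e1, e2, Nat.choose_succ_succ']
        simp only [Function.iterate_succ_apply]
        push_cast; ring

theorem IsLND.unit [IsDomain B] [CharZero B] {D : Derivation K B B} (hD : IsLND D) {a b : B}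
    (h : a * b = 1) : D a = 0 := by
  have key : ∀ a : B, a ≠ 0 → ∃ n, (⇑D)^[n] a ≠ 0 ∧ (⇑D)^[n + 1] a = 0 := by
    intro a ha
    obtain ⟨n, hn⟩ := hD a
    induction n with
    | zero => exact absurd hn ha
    | succ n ih =>
      by_cases h : (⇑D)^[n] a = 0
      · exact ih h
      · exact ⟨n, h, hn⟩
  obtain ⟨n, h1, h2⟩ := key a (left_ne_zero_of_mul_eq_one h)
  obtain ⟨l, h3, h4⟩ := key b (right_ne_zero_of_mul_eq_one h)
  have e := iter_mul D _ n l a b rfl h2 h4
  rcases n with _ | n
  · exact h2
  · exfalso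
    rw [h, show n + 1 + l = n + l + 1 by omega, Function.iterate_succ_apply,
      Derivation.map_one_eq_zero, Function.iterate_fixed (map_zero D)] at e
    refine mul_ne_zero ?_ (mul_ne_zero h1 h3) e.symm
    exact Nat.cast_ne_zero.2 (Nat.choose_pos (by omega)).ne'

end HD

variable {R : Type*} [CommRing R]

/-- The surface `y ^ 2 = m z + e` over `R`. -/
abbrev Q (m e : R) := QuadraticAlgebra R[X] (C m * X + C e) 0

variable {m e : R}

noncomputable def zz (m e : R) : Q m e := algebraMap R[X] _ X
noncomputable def yy (m e : R) : Q m e := QuadraticAlgebra.omega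

theorem alg_eq (r : R) : algebraMap R (Q m e) r = ⟨C r, 0⟩ := rfl
theorem zz_eq : zz m e = ⟨X, 0⟩ := rfl
theorem yy_eq : yy m e = ⟨0, 1⟩ := rfl

theorem rel : yy m e * yy m e = algebraMap R _ m * zz m e + algebraMap R _ e := by
  ext1 <;> simp [alg_eq, zz_eq, yy_eq]

noncomputable def mkQ {T : Type*} [CommRing T] (ρ : R →+* T) (Y Z : T)
    (h : Y * Y = ρ m * Z + ρ e) : Q m e →+* T where
  toFun w := w.re.eval₂ ρ Z + w.im.eval₂ ρ Z * Y
  map_one' := by simp [QuadraticAlgebra.re_one, QuadraticAlgebra.im_one]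
  map_zero' := by simp
  map_add' a b := by simp [eval₂_add]; ring
  map_mul' a b := by
    simp [eval₂_add, eval₂_mul]
    linear_combination (-eval₂ ρ Z a.im * eval₂ ρ Z b.im) * h

section
variable {T : Type*} [CommRing T] (ρ : R →+* T) (Y Z : T) (h : Y * Y = ρ m * Z + ρ e)

@[simp] theorem mkQ_alg (r : R) : mkQ ρ Y Z h (algebraMap R _ r) = ρ r := by simp [mkQ, alg_eq]
@[simp] theorem mkQ_y : mkQ ρ Y Z h (yy m e) = Y := by simp [mkQ, yy_eq]
@[simp] theorem mkQ_z : mkQ ρ Y Z h (zz m e) = Z := by simp [mkQ, zz_eq]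
end

theorem Q_ind {p : Q m e → Prop} (hR : ∀ r, p (algebraMap R _ r)) (hy : p (yy m e))
    (hz : p (zz m e)) (ha : ∀ a b, p a → p b → p (a + b)) (hm : ∀ a b, p a → p b → p (a * b))
    (w : Q m e) : p w := by
  have h1 : ∀ f : R[X], p (algebraMap R[X] _ f) := by
    intro f
    induction f using Polynomial.induction_on with
    | C a => exact hR a
    | add f g hf hg => rw [map_add]; exact ha _ _ hf hg
    | monomial n a h => rw [pow_succ, ← mul_assoc, map_mul]; exact hm _ _ h hz
  have : w = algebraMap R[X] _ w.re + algebraMap R[X] _ w.im * yy m e := by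
    ext1 <;> simp [yy_eq]
  rw [this]
  exact ha _ _ (h1 _) (hm _ _ (h1 _) hy)

theorem P_ind {p : (Q m e)[X] → Prop} (hR : ∀ r, p (algebraMap R _ r)) (hy : p (C (yy m e)))
    (hz : p (C (zz m e))) (hu : p X) (ha : ∀ a b, p a → p b → p (a + b))
    (hm : ∀ a b, p a → p b → p (a * b)) (w : (Q m e)[X]) : p w := by
  have h1 : ∀ a, p (C a) := Q_ind hR hy hz (fun a b h1 h2 => by rw [map_add]; exact ha _ _ h1 h2)
    fun a b h1 h2 => by rw [map_mul]; exact hm _ _ h1 h2
  induction w using Polynomial.induction_on with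
  | C a => exact h1 a
  | add f g hf hg => exact ha _ _ hf hg
  | monomial n a h => rw [pow_succ, ← mul_assoc]; exact hm _ _ h hu

theorem relP : C (yy m e) * C (yy m e) =
    algebraMap R (Q m e)[X] m * C (zz m e) + algebraMap R _ e := by
  rw [← map_mul, rel]; simp [Polynomial.algebraMap_apply]

noncomputable def mkP {T : Type*} [CommRing T] (ρ : R →+* T) (Y Z U : T)
    (h : Y * Y = ρ m * Z + ρ e) : (Q m e)[X] →+* T := eval₂RingHom (mkQ ρ Y Z h) U

section
variable {T : Type*} [CommRing T] (ρ : R →+* T) (Y Z U : T) (h : Y * Y = ρ m * Z + ρ e)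

@[simp] theorem mkP_alg (r : R) : mkP ρ Y Z U h (algebraMap R _ r) = ρ r := by
  simp [mkP, Polynomial.algebraMap_apply]
@[simp] theorem mkP_y : mkP ρ Y Z U h (C (yy m e)) = Y := by simp [mkP]
@[simp] theorem mkP_z : mkP ρ Y Z U h (C (zz m e)) = Z := by simp [mkP]
@[simp] theorem mkP_u : mkP ρ Y Z U h X = U := by simp [mkP]
end

open Classical in
noncomputable def dg (w : Q m e) : ℕ :=
  if w.im = 0 then 2 * w.re.natDegree else max (2 * w.re.natDegree) (2 * w.im.natDegree + 1)

theorem deg_formula {F : Type*} [Field F] (ψ : Q m e →+* F[X]) (ρ : R →+* F)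
    (hρ : Function.Injective ρ) (hm : m ≠ 0) (hψ : ∀ r, ψ (algebraMap R _ r) = C (ρ r))
    (w : Q m e) : (ψ w).natDegree = (ψ (yy m e)).natDegree * dg w := by
  set d := (ψ (yy m e)).natDegree with hd
  have hm' : ρ m ≠ 0 := by simpa using hρ.ne hm
  have hz : (ψ (zz m e)).natDegree = 2 * d := by
    have := congrArg (fun w => (ψ w).natDegree) (rel (m := m) (e := e))
    simp only [map_mul, map_add, hψ, natDegree_add_C, natDegree_C_mul hm'] at this
    rw [← this, ← sq, natDegree_pow]
  have h1 : ∀ f : R[X], ψ (algebraMap R[X] _ f) = (f.map ρ).comp (ψ (zz m e)) := by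
    intro f
    induction f using Polynomial.induction_on with
    | C a => rw [map_C, C_comp]; exact hψ a
    | add f g hf hg => simp [hf, hg]
    | monomial n a h =>
      rw [pow_succ, ← mul_assoc, map_mul, map_mul, h, Polynomial.map_mul (p := C a * X ^ n),
        mul_comp]
      simp [zz]
  have h2 : ∀ f : R[X], (ψ (algebraMap R[X] _ f)).natDegree = d * (2 * f.natDegree) := by
    intro f
    rw [h1, natDegree_comp, natDegree_map_eq_of_injective hρ, hz]; ring
  have h3 : w = algebraMap R[X] _ w.re + algebraMap R[X] _ w.im * yy m e := by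
    ext1 <;> simp [yy_eq]
  rw [dg]
  split_ifs with h
  · conv_lhs => rw [h3, h]
    simpa using h2 w.re
  · rcases Nat.eq_zero_or_pos d with h0 | h0
    · rw [h0, zero_mul, h3, map_add, map_mul]
      apply Nat.eq_zero_of_le_zero
      refine (natDegree_add_le _ _).trans (max_le ?_ (natDegree_mul_le.trans ?_))
      · rw [h2, h0, zero_mul]
      · rw [h2, ← hd, h0, zero_mul]
    · have n1 : ψ (yy m e) ≠ 0 := by
        intro h; rw [h] at hd; simp at hd; omega
      have n2 : ψ (algebraMap R[X] _ w.im) ≠ 0 := by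
        rw [h1, Ne, comp_eq_zero_iff]
        rintro (h4 | ⟨-, h4⟩)
        · exact h ((Polynomial.map_eq_zero_iff hρ).1 h4)
        · rw [h4, natDegree_C] at hz; omega
      have h5 : (ψ (algebraMap R[X] _ w.im) * ψ (yy m e)).natDegree =
          d * (2 * w.im.natDegree + 1) := by
        rw [natDegree_mul n2 n1, h2, ← hd]; ring
      conv_lhs => rw [h3, map_add, map_mul]
      rcases lt_or_ge (2 * w.re.natDegree) (2 * w.im.natDegree + 1) with h6 | h6
      · rw [max_eq_right h6.le, natDegree_add_eq_right_of_natDegree_lt, h5]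
        rw [h5, h2]; exact Nat.mul_lt_mul_of_pos_left h6 h0
      · rw [max_eq_left h6, natDegree_add_eq_left_of_natDegree_lt, h2]
        rw [h5, h2]; exact Nat.mul_lt_mul_of_pos_left (by omega) h0

theorem dg_le {w : Q m e} (h : dg w ≤ 2) : ∃ a b c : R,
    w = algebraMap R _ a * zz m e + algebraMap R _ b * yy m e + algebraMap R _ c ∧
      (dg w ≤ 1 → a = 0) ∧ (dg w = 0 → b = 0) := by
  have h1 : 2 * w.re.natDegree ≤ dg w := by
    rw [dg]; split_ifs; exacts [le_rfl, le_max_left _ _]
  have h2 : w.im.natDegree = 0 ∧ (dg w = 0 → w.im = 0) := by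
    rw [dg] at h ⊢; split_ifs at h ⊢ with h3
    · simp [h3]
    · have := le_max_right (2 * w.re.natDegree) (2 * w.im.natDegree + 1)
      constructor <;> omega
  refine ⟨w.re.coeff 1, w.im.coeff 0, w.re.coeff 0, ?_, fun h3 => ?_, fun h3 => ?_⟩
  · ext1
    · simpa [alg_eq, zz_eq, yy_eq] using eq_X_add_C_of_natDegree_le_one (by omega)
    · simpa [alg_eq, zz_eq, yy_eq] using eq_C_of_natDegree_eq_zero h2.1
  · exact coeff_eq_zero_of_natDegree_lt (by omega)
  · simp [h2.2 h3]

theorem comb_eq {a b c a' b' c' : R}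
    (h : algebraMap R _ a * zz m e + algebraMap R _ b * yy m e + algebraMap R _ c =
      algebraMap R _ a' * zz m e + algebraMap R _ b' * yy m e + algebraMap R _ c') :
    a = a' ∧ b = b' ∧ c = c' := by
  have h1 := congrArg QuadraticAlgebra.re h
  have h2 := congrArg QuadraticAlgebra.im h
  simp [alg_eq, zz_eq, yy_eq] at h1 h2
  exact ⟨by simpa using congrArg (coeff · 1) h1, h2, by simpa using congrArg (coeff · 0) h1⟩

section
variable [IsDomain R]

noncomputable def iota (e : R) (hm : m ≠ 0) : Q m e →+* (FractionRing R)[X] :=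
  mkQ (C.comp (algebraMap R _)) X
    (C (algebraMap R (FractionRing R) m)⁻¹ * (X * X - C (algebraMap R _ e))) (by
      have : algebraMap R (FractionRing R) m ≠ 0 := by simpa using hm
      simp only [RingHom.comp_apply]
      rw [← mul_assoc, ← map_mul, mul_inv_cancel₀ this]; simp)

variable (hm : m ≠ 0)

theorem iota_alg (r : R) : iota e hm (algebraMap R _ r) = C (algebraMap R _ r) := by simp [iota]
theorem iota_y : iota e hm (yy m e) = X := by simp [iota]

theorem iota_deg (w : Q m e) : (iota e hm w).natDegree = dg w := by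
  rw [deg_formula (iota e hm) _ (IsFractionRing.injective R _) hm (iota_alg hm), iota_y]; simp

theorem iota_inj : Function.Injective (iota e hm) := by
  rw [injective_iff_map_eq_zero]
  intro w hw
  have h := iota_deg hm w
  rw [hw, natDegree_zero] at h
  obtain ⟨a, b, c, h1, h2, h3⟩ := dg_le (w := w) (by omega)
  rw [h2 (by omega), h3 h.symm] at h1
  simp only [map_zero, zero_mul, zero_add] at h1
  rw [h1, iota_alg] at hw
  have : c = 0 := by simpa using hw
  rw [h1, this, map_zero]

include hm in
theorem dom : IsDomain (Q m e) := (iota_inj hm).isDomain _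

end

end Pool.Agent.H.MP_340332_ag
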