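import Pool.Agent.H.MP_340332_ag.A

namespace Pool.Agent.H.MP_340332_ag
open Polynomial

section
variable {R : Type*} [CommRing R] {m e : R}

noncomputable def mkA {T : Type*} [CommRing T] [Algebra R T] (Y Z U : T)
    (h : Y * Y = algebraMap R T m * Z + algebraMap R T e) : (Q m e)[X] →ₐ[R] T :=
  { mkP (algebraMap R T) Y Z U h with commutes' := mkP_alg _ _ _ _ _ }

section
variable {T : Type*} [CommRing T] [Algebra R T] (Y Z U : T)
    (h : Y * Y = algebraMap R T m * Z + algebraMap R T e)
@[simp] theorem mkA_y : mkA Y Z U h (C (yy m e)) = Y := mkP_y _ _ _ _ h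
@[simp] theorem mkA_z : mkA Y Z U h (C (zz m e)) = Z := mkP_z _ _ _ _ h
@[simp] theorem mkA_u : mkA Y Z U h X = U := mkP_u _ _ _ _ h
end

theorem A_ext {T : Type*} [CommRing T] [Algebra R T] [IsDomain T] (hm : algebraMap R T m ≠ 0)
    {f g : (Q m e)[X] →ₐ[R] T} (hy : f (C (yy m e)) = g (C (yy m e))) (hu : f X = g X) : f = g := by
  apply AlgHom.ext
  refine P_ind (fun r => by simp only [AlgHom.commutes]) hy ?_ hu
    (fun a b h1 h2 => by simp only [map_add, h1, h2]) fun a b h1 h2 => by
      simp only [map_mul, h1, h2]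
  have h1 := congrArg f (relP (m := m) (e := e))
  have h2 := congrArg g (relP (m := m) (e := e))
  simp only [map_mul, map_add, AlgHom.commutes] at h1 h2
  apply mul_left_cancel₀ hm
  rw [hy] at h1
  linear_combination h2 - h1

theorem alg_ne {r : R} (hr : r ≠ 0) : algebraMap R (Q m e)[X] r ≠ 0 := by
  rw [Polynomial.algebraMap_apply, C_ne_zero, alg_eq]
  intro h
  exact hr (by simpa using congrArg QuadraticAlgebra.re h)

noncomputable def th (m e : R) (s : ℤ) (i : ℕ) : (Q m e)[X] →ₐ[R] (Q m e)[X] :=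
  mkA (C (yy m e) + algebraMap R _ m * ((s : (Q m e)[X]) * X ^ i))
    (C (zz m e) + 2 * C (yy m e) * ((s : (Q m e)[X]) * X ^ i) + algebraMap R _ m * ((s : (Q m e)[X]) * X ^ i) ^ 2) X
    (by linear_combination relP (m := m) (e := e))

theorem th_y (s : ℤ) (i : ℕ) : th m e s i (C (yy m e)) =
    C (yy m e) + algebraMap R _ m * ((s : (Q m e)[X]) * X ^ i) := mkA_y _ _ _ _
theorem th_z (s : ℤ) (i : ℕ) : th m e s i (C (zz m e)) = C (zz m e) +
    2 * C (yy m e) * ((s : (Q m e)[X]) * X ^ i) +
      algebraMap R _ m * ((s : (Q m e)[X]) * X ^ i) ^ 2 := mkA_z _ _ _ _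
theorem th_u (s : ℤ) (i : ℕ) : th m e s i X = X := mkA_u _ _ _ _

variable [IsDomain R] (K : Type*) [Field K] [Algebra K R]

theorem th_mem (hm : m ≠ 0) (i : ℕ) {w : (Q m e)[X]} (hw : w ∈ HD K (Q m e)[X]) :
    th m e 1 i w ∈ HD K (Q m e)[X] := by
  have := dom (e := e) hm
  have h : ∀ s s' : ℤ, s + s' = 0 → (th m e s i).comp (th m e s' i) = AlgHom.id _ _ := by
    intro s s' hs
    have hs' : (s : (Q m e)[X]) + s' = 0 := by exact_mod_cast congrArg (Int.cast (R := (Q m e)[X])) hs
    refine A_ext (alg_ne hm) ?_ ?_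
    · simp only [AlgHom.comp_apply, AlgHom.id_apply, th_y, map_add, map_mul, map_pow, th_u,
        AlgHom.commutes, map_intCast]
      linear_combination (algebraMap R (Q m e)[X] m * X ^ i) * hs'
    · simp only [AlgHom.comp_apply, AlgHom.id_apply, th_u]
  exact map_mem_HD ((AlgEquiv.ofAlgHom (th m e 1 i) (th m e (-1) i) (h _ _ (by simp))
    (h _ _ (by simp))).restrictScalars K) hw

omit [IsDomain R] in
theorem alg_mem (r : R) : algebraMap R (Q m e)[X] r ∈ HD K (Q m e)[X] := C_mem_HD _

theorem m_mem (hm : m ≠ 0) (i : ℕ) : algebraMap R (Q m e)[X] m * X ^ i ∈ HD K (Q m e)[X] := by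
  have := sub_mem (th_mem K hm i (C_mem_HD (yy m e))) (C_mem_HD (yy m e))
  rwa [th_y, add_sub_cancel_left, Int.cast_one, one_mul] at this

theorem y_mem [CharZero K] (hm : m ≠ 0) (i : ℕ) : C (yy m e) * X ^ i ∈ HD K (Q m e)[X] := by
  have h1 := sub_mem (sub_mem (th_mem K hm i (C_mem_HD (zz m e))) (C_mem_HD (zz m e)))
    (m_mem K hm (i * 2))
  have h2 := Subalgebra.smul_mem _ h1 (2⁻¹ : K)
  rw [th_z, Int.cast_one, one_mul, pow_mul] at h2
  convert h2 using 1
  rw [eq_comm, inv_smul_eq_iff₀ two_ne_zero, two_smul]; ring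

end

variable {K : Type*} [Field K]


theorem L_ind {p : (LaurentPolynomial K) → Prop} (hC : ∀ k, p (LaurentPolynomial.C k)) (h1 : p (LaurentPolynomial.T 1)) (h2 : p (LaurentPolynomial.T (-1)))
    (ha : ∀ a b, p a → p b → p (a + b)) (hm : ∀ a b, p a → p b → p (a * b)) (r : (LaurentPolynomial K)) : p r := by
  induction r using LaurentPolynomial.induction_on' with
  | add a b h1 h2 => exact ha _ _ h1 h2
  | C_mul_T n a =>
    refine hm _ _ (hC a) ?_
    induction n using Int.induction_on with
    | zero => simpa using hC 1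
    | succ n ih => rw [LaurentPolynomial.T_add]; exact hm _ _ ih h1
    | pred n ih => rw [LaurentPolynomial.T_sub]; exact hm _ _ ih h2

theorem TT : (LaurentPolynomial.T 1 * LaurentPolynomial.T (-1) : (LaurentPolynomial K)) = 1 := by rw [← LaurentPolynomial.T_add]; simp

theorem L_ext {S : Type*} [CommRing S] {f g : (LaurentPolynomial K) →+* S} (hC : ∀ k, f (LaurentPolynomial.C k) = g (LaurentPolynomial.C k))
    (hT : f (LaurentPolynomial.T 1) = g (LaurentPolynomial.T 1)) : f = g := by
  apply RingHom.ext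
  refine L_ind hC hT ?_ (fun a b h1 h2 => by simp only [map_add, h1, h2]) fun a b h1 h2 => by
    simp only [map_mul, h1, h2]
  have h1 := congrArg f TT
  have h2 := congrArg g TT
  simp only [map_mul, map_one] at h1 h2
  rw [hT] at h1
  linear_combination (-f (LaurentPolynomial.T (-1))) * h2 + g (LaurentPolynomial.T (-1)) * h1

noncomputable def evL {S : Type*} [CommRing S] [Algebra K S] {τ : S} (h : IsUnit τ) : (LaurentPolynomial K) →+* S :=
  LaurentPolynomial.eval₂ (algebraMap K S) h.unit

@[simp] theorem evL_C {S : Type*} [CommRing S] [Algebra K S] {τ : S} (h : IsUnit τ) (k : K) :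
    evL h (LaurentPolynomial.C k) = algebraMap K S k := by simp [evL]

@[simp] theorem evL_T {S : Type*} [CommRing S] [Algebra K S] {τ : S} (h : IsUnit τ) :
    evL h (LaurentPolynomial.T 1 : (LaurentPolynomial K)) = τ := by simp [evL]

theorem alg_C {m e : (LaurentPolynomial K)} (k : K) : algebraMap (LaurentPolynomial K) (Q m e) (LaurentPolynomial.C k) = algebraMap K _ k := by
  rw [LaurentPolynomial.C_eq_algebraMap, ← IsScalarTower.algebraMap_apply]

theorem alg_CP {m e : (LaurentPolynomial K)} (k : K) : algebraMap (LaurentPolynomial K) (Q m e)[X] (LaurentPolynomial.C k) = algebraMap K _ k := by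
  rw [LaurentPolynomial.C_eq_algebraMap, ← IsScalarTower.algebraMap_apply]

open TrivSqZeroExt in
theorem typeB [CharZero K] {τ : K} (hτ : IsUnit τ) {m e m1 e1 : (LaurentPolynomial K)} (hm : m = (LaurentPolynomial.T 1 - LaurentPolynomial.C τ) * m1)
    (he : e = (LaurentPolynomial.T 1 - LaurentPolynomial.C τ) ^ 2 * e1) (h1 : evL hτ m1 ≠ 0) (hm0 : m ≠ 0) :
    HD K (Q m e)[X] ≠ ⊤ ∧ ¬ (HD K (Q m e)[X]).FG := by
  have hu : ∀ t1 : K[X], IsUnit (inl (C τ) + inr t1 : DualNumber K[X]) := fun t1 => by
    rw [isUnit_iff_isUnit_fst]; simpa using hτ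
  have ha : ∀ t1, evL (hu t1) (LaurentPolynomial.T 1 - LaurentPolynomial.C τ : (LaurentPolynomial K)) = inr t1 := fun t1 => by
    rw [map_sub, evL_T, evL_C]; ext1 <;> simp [algebraMap_eq_inl']
  have ha0 : evL hτ (LaurentPolynomial.T 1 - LaurentPolynomial.C τ : (LaurentPolynomial K)) = 0 := by simp
  let H : K[X] → K[X] → K[X] → (Q m e)[X] →+* DualNumber K[X] := fun t1 y1 z1 =>
    mkP (evL (hu t1)) (inr y1) (inr z1) (inl X) (by
      rw [hm, he]; simp only [map_mul, map_pow, ha]; ext1 <;> simp [sq])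
  let ev : (Q m e)[X] →+* K[X] := mkP (C.comp (evL hτ)) 0 0 X (by
    rw [he]; simp only [RingHom.comp_apply, map_mul, map_pow, ha0]; simp)
  have hf : ∀ t1 y1 z1 w, fst (H t1 y1 z1 w) = ev w := by
    intro t1 y1 z1
    refine P_ind (fun r => ?_) (by simp [H, ev]) (by simp [H, ev]) (by simp [H, ev])
      (fun a b h1 h2 => by simp [h1, h2]) fun a b h1 h2 => by simp [h1, h2]
    simp only [H, ev, mkP_alg]
    have : (fstHom K K[X] K[X]).toRingHom.comp (evL (hu t1)) = C.comp (evL hτ) :=
      L_ext (K := K) (fun k => by simp [algebraMap_eq_inl']) (by simp)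
    exact DFunLike.congr_fun this r
  have hm1 : ev (algebraMap (LaurentPolynomial K) _ m1) = C (evL hτ m1) := by simp only [ev, mkP_alg]; rfl
  have key : ∀ D : Derivation K (Q m e)[X] (Q m e)[X], ∀ w,
      ev (D w) = derivative (ev w) * ev (D X) := by
    intro D
    set a : (Q m e)[X] := algebraMap (LaurentPolynomial K) _ (LaurentPolynomial.T 1 - LaurentPolynomial.C τ) with hA
    have r0 : C (yy m e) * C (yy m e) =
        a * algebraMap (LaurentPolynomial K) _ m1 * C (zz m e) + a * a * algebraMap (LaurentPolynomial K) _ e1 := by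
      rw [relP, hA, ← map_mul, ← map_mul, ← map_mul, ← sq, ← hm, ← he]
    have r1 := congrArg D r0
    simp only [map_add, Derivation.leibniz, smul_eq_mul] at r1
    have r2 : ∀ t1 y1 z1 : K[X], 2 * y1 * ev (D (C (yy m e))) =
        C (evL hτ m1) * (t1 * ev (D (C (zz m e))) + z1 * ev (D a)) +
          2 * t1 * ev (algebraMap (LaurentPolynomial K) _ e1) * ev (D a) := by
      intro t1 y1 z1
      have r3 := congrArg (fun w => snd (H t1 y1 z1 w)) r1
      have e1 : H t1 y1 z1 a = inr t1 := by simp only [H, hA, mkP_alg, ha]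
      have e2 : H t1 y1 z1 (C (yy m e)) = inr y1 := by simp [H]
      have e3 : H t1 y1 z1 (C (zz m e)) = inr z1 := by simp [H]
      simp only [map_add, map_mul, e1, e2, e3, snd_add, DualNumber.snd_mul, fst_mul, fst_add, hf,
        fst_inr, snd_inr, hm1] at r3
      linear_combination r3
    have n1 : C (evL hτ m1) ≠ 0 := C_ne_zero.2 h1
    have a1 : ev (D a) = 0 := by simpa [h1] using (r2 0 0 1).symm
    have a2 : ev (D (C (yy m e))) = 0 := by simpa using r2 0 1 0
    have a3 : ev (D (C (zz m e))) = 0 := by simpa [h1, a1] using (r2 1 0 0).symm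
    have a4 : ev (D (algebraMap (LaurentPolynomial K) _ (LaurentPolynomial.T 1))) = 0 := by
      rw [hA, map_sub, map_sub, alg_CP, D.map_algebraMap, sub_zero] at a1; exact a1
    have a5 : ∀ r : (LaurentPolynomial K), ev (D (algebraMap (LaurentPolynomial K) _ r)) = 0 := by
      refine L_ind (fun k => by rw [alg_CP, D.map_algebraMap, map_zero]) a4 ?_
        (fun a b h1 h2 => by simp only [map_add, h1, h2, add_zero]) fun a b h1 h2 => by
          simp only [map_mul, map_add, Derivation.leibniz, smul_eq_mul, h1, h2, mul_zero, add_zero]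
      have := congrArg (fun r => ev (D (algebraMap (LaurentPolynomial K) _ r))) TT
      simp only [map_mul, map_add, Derivation.leibniz, smul_eq_mul, a4, map_one,
        Derivation.map_one_eq_zero, map_zero, mul_zero, add_zero] at this
      refine (mul_eq_zero.1 this).resolve_left ?_
      simpa [ev, -Polynomial.algebraMap_apply] using hτ.ne_zero
    refine P_ind (fun r => ?_) (by simp [a2, ev]) (by simp [a3, ev]) (by simp [ev])
      (fun a b h1 h2 => by simp only [map_add, h1, h2]; ring) fun a b h1 h2 => by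
        simp only [map_mul, map_add, Derivation.leibniz, smul_eq_mul, h1, h2, derivative_mul]; ring
    rw [a5]; simp [ev, -Polynomial.algebraMap_apply]
  have evK : ∀ k : K, H 1 0 0 (algebraMap K _ k) = inl (C k) := fun k => by
    rw [← alg_CP]; simp only [H, mkP_alg, evL_C]; rfl
  have hc : ∀ w ∈ HD K (Q m e)[X], derivative (ev w) = 0 := by
    intro w hw
    induction hw using Algebra.adjoin_induction with
    | mem x hx =>
      obtain ⟨D, -, ⟨s, hs⟩, h0⟩ := hx
      have h2 := key D s
      have h3 := key D x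
      rw [hs, map_one] at h2
      rw [h0, map_zero] at h3
      exact (mul_eq_zero.1 h3.symm).resolve_right (right_ne_zero_of_mul_eq_one h2.symm)
    | algebraMap r => rw [← hf 1 0 0, evK]; simp
    | add x y _ _ hx hy => simp [hx, hy]
    | mul x y _ _ hx hy => simp [hx, hy]
  refine ⟨fun h => ?_, ?_⟩
  · have := hc X (h ▸ Algebra.mem_top)
    simp [ev] at this
  · rintro ⟨G, hG⟩
    set N := G.sup fun g => (snd (H 1 0 0 g)).natDegree
    have hN : ∀ w ∈ Algebra.adjoin K (G : Set (Q m e)[X]), (snd (H 1 0 0 w)).natDegree ≤ N := by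
      intro w hw
      induction hw using Algebra.adjoin_induction with
      | mem x hx => exact Finset.le_sup (f := fun g => (snd (H 1 0 0 g)).natDegree) hx
      | algebraMap r => rw [evK]; simp
      | add x y _ _ hx hy =>
        rw [map_add, snd_add]; exact (natDegree_add_le _ _).trans (max_le hx hy)
      | mul x y h1 h2 hx hy =>
        rw [hG] at h1 h2
        rw [map_mul, DualNumber.snd_mul, hf, hf]
        have e1 := derivative_eq_zero.1 (hc x h1)
        have e2 := derivative_eq_zero.1 (hc y h2)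
        refine (natDegree_add_le _ _).trans (max_le (natDegree_mul_le.trans ?_)
          (natDegree_mul_le.trans ?_)) <;> omega
    have h2 := hN _ (hG ▸ m_mem K hm0 (N + 1))
    have e1 : H 1 0 0 (algebraMap (LaurentPolynomial K) _ m) = inr 1 * H 1 0 0 (algebraMap (LaurentPolynomial K) _ m1) := by
      simp only [H, mkP_alg]; rw [hm, map_mul, ha]
    have e2 : H 1 0 0 X = inl X := by simp [H]
    rw [map_mul, map_pow, e1, e2] at h2
    simp only [DualNumber.snd_mul, fst_mul, fst_inr, snd_inr, hf, hm1, zero_mul, zero_add, one_mul,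
      fst_pow, fst_inl] at h2
    rw [natDegree_C_mul h1, natDegree_X_pow] at h2
    omega

end Pool.Agent.H.MP_340332_ag
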