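import Pool.Agent.H.MP_340332_ag.B

namespace Pool.Agent.H.MP_340332_ag
open Polynomial

theorem cyl {R : Type*} [CommRing R] [IsDomain R] {m e e' a b α : R} (hm : m ≠ 0)
    (he : e' = α ^ 2 * e) (h : a * α + b * m = 1) :
    Nonempty ((Q m e)[X] ≃ₐ[R] (Q m e')[X]) := by
  have := dom (e := e) hm
  have := dom (e := e') hm
  have h1 := congrArg (algebraMap R (Q m e)[X]) h
  have h2 := congrArg (algebraMap R (Q m e')[X]) h
  have h3 := congrArg (algebraMap R (Q m e)[X]) he
  have h4 := congrArg (algebraMap R (Q m e')[X]) he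
  simp only [map_add, map_mul, map_one, map_pow] at h1 h2 h3 h4
  let Φ : (Q m e')[X] →ₐ[R] (Q m e)[X] :=
    mkA (algebraMap R _ α * C (yy m e) + algebraMap R _ m * X)
      (algebraMap R _ α ^ 2 * C (zz m e) + 2 * algebraMap R _ α * C (yy m e) * X +
        algebraMap R _ m * X ^ 2) (-algebraMap R _ b * C (yy m e) + algebraMap R _ a * X)
      (by rw [h3]; linear_combination algebraMap R _ α ^ 2 * relP (m := m) (e := e))
  let Ψ : (Q m e)[X] →ₐ[R] (Q m e')[X] :=
    mkA (algebraMap R _ a * C (yy m e') - algebraMap R _ m * X)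
      (algebraMap R _ a ^ 2 * C (zz m e') - algebraMap R _ b *
        (algebraMap R _ a * algebraMap R _ α + 1) * algebraMap R _ e -
          2 * algebraMap R _ a * C (yy m e') * X + algebraMap R _ m * X ^ 2)
      (algebraMap R _ b * C (yy m e') + algebraMap R _ α * X)
      (by
        linear_combination algebraMap R _ a ^ 2 * relP (m := m) (e := e') +
          algebraMap R _ a ^ 2 * h4 + (algebraMap R _ a * algebraMap R _ α + 1) *
            algebraMap R _ e * h2)
  have Φy : Φ (C (yy m e')) = _ := mkA_y _ _ _ _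
  have Φu : Φ X = _ := mkA_u _ _ _ _
  have Ψy : Ψ (C (yy m e)) = _ := mkA_y _ _ _ _
  have Ψu : Ψ X = _ := mkA_u _ _ _ _
  refine ⟨AlgEquiv.ofAlgHom Ψ Φ (A_ext (alg_ne hm) ?_ ?_) (A_ext (alg_ne hm) ?_ ?_)⟩ <;>
    simp only [AlgHom.comp_apply, AlgHom.id_apply, Φy, Φu, Ψy, Ψu, map_add, map_mul, map_sub,
      map_neg, AlgHom.commutes]
  · linear_combination C (yy m e') * h2
  · linear_combination X * h2
  · linear_combination C (yy m e) * h1
  · linear_combination X * h1

variable {K : Type*} [Field K]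


theorem iso_form {m e m' e' : (LaurentPolynomial K)} (hm : m ≠ 0) (hm' : m' ≠ 0) (φ : Q m e ≃ₐ[K] Q m' e') :
    ∃ s α β γ δ η : (LaurentPolynomial K), IsUnit α ∧ IsUnit γ ∧ φ (algebraMap (LaurentPolynomial K) _ (LaurentPolynomial.T 1)) = algebraMap (LaurentPolynomial K) _ s ∧
      φ (yy m e) = algebraMap (LaurentPolynomial K) _ α * yy m' e' + algebraMap (LaurentPolynomial K) _ β ∧
      φ (zz m e) = algebraMap (LaurentPolynomial K) _ γ * zz m' e' + algebraMap (LaurentPolynomial K) _ δ * yy m' e' + algebraMap (LaurentPolynomial K) _ η := by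
  let ψ : Q m e →+* (FractionRing (LaurentPolynomial K))[X] := (iota e' hm').comp φ
  obtain ⟨u, hu, hu'⟩ := Polynomial.isUnit_iff.1
    (((LaurentPolynomial.isUnit_T (R := K) 1).map (algebraMap (LaurentPolynomial K) (Q m e))).map ψ)
  let ρ : (LaurentPolynomial K) →+* FractionRing (LaurentPolynomial K) := LaurentPolynomial.eval₂ ((algebraMap (LaurentPolynomial K) _).comp LaurentPolynomial.C) hu.unit
  have h1 : ψ.comp (algebraMap (LaurentPolynomial K) _) = C.comp ρ := by
    refine L_ext (fun k => ?_) (by simp [ρ, hu'])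
    simp only [ψ, ρ, RingHom.comp_apply, LaurentPolynomial.eval₂_C, alg_C, RingHom.coe_coe,
      AlgEquiv.commutes]
    rw [← alg_C, iota_alg]
  have h2 : ∀ r, ψ (algebraMap (LaurentPolynomial K) _ r) = C (ρ r) := fun r => DFunLike.congr_fun h1 r
  have hρ : Function.Injective ρ := by
    intro r r' h
    have : ψ (algebraMap (LaurentPolynomial K) _ r) = ψ (algebraMap (LaurentPolynomial K) _ r') := by rw [h2, h2, h]
    have := φ.injective (iota_inj hm' this)
    simpa [alg_eq] using this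
  have h3 : ∀ w, dg (φ w) = (ψ (yy m e)).natDegree * dg w := fun w => by
    rw [← deg_formula ψ ρ hρ hm h2, ← iota_deg hm']; rfl
  have dy : ∀ {m e : (LaurentPolynomial K)}, dg (yy m e) = 1 := by intros; simp [dg, yy_eq]
  have dz : ∀ {m e : (LaurentPolynomial K)}, dg (zz m e) = 2 := by intros; simp [dg, zz_eq]
  have h4 : ∀ w, dg (φ w) = dg w := fun w => by
    have := h3 (φ.symm (yy m' e'))
    rw [φ.apply_symm_apply, dy] at this
    rw [h3, Nat.eq_one_of_mul_eq_one_right this.symm, one_mul]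
  have h5 : ∀ r : (LaurentPolynomial K), ∃ s, φ (algebraMap (LaurentPolynomial K) _ r) = algebraMap (LaurentPolynomial K) _ s := fun r => by
    have h : dg (φ (algebraMap (LaurentPolynomial K) _ r)) = 0 := by rw [h4]; simp [dg, alg_eq]
    obtain ⟨a, b, c, h1, h2, h3⟩ := dg_le (w := φ (algebraMap (LaurentPolynomial K) _ r)) (by omega)
    exact ⟨c, by rw [h1, h2 (by omega), h3 h]; simp only [map_zero, zero_mul, zero_add]⟩
  choose σ hσ using h5
  obtain ⟨a, α, β, e1, e2, -⟩ := dg_le (w := φ (yy m e)) (by rw [h4, dy]; omega)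
  rw [e2 (by rw [h4, dy]), map_zero, zero_mul, zero_add] at e1
  obtain ⟨γ, δ, η, e3, -⟩ := dg_le (w := φ (zz m e)) (by rw [h4, dz])
  refine ⟨σ _, α, β, γ, δ, η, ?_, ?_, hσ _, e1, e3⟩
  · have h : dg (φ.symm (yy m' e')) = 1 := by rw [← h4, φ.apply_symm_apply, dy]
    obtain ⟨a, b, c, f1, f2, -⟩ := dg_le (w := φ.symm (yy m' e')) (by omega)
    rw [f2 h.le, map_zero, zero_mul, zero_add, AlgEquiv.symm_apply_eq] at f1
    simp only [map_add, map_mul, hσ, e1] at f1
    refine IsUnit.of_mul_eq_one (σ b) (comb_eq (m := m') (e := e') (a := 0) (a' := 0)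
      (c := σ b * β + σ c) (c' := 0) ?_).2.1
    simp only [map_add, map_mul, map_zero, map_one]
    linear_combination -f1
  · have h : dg (φ.symm (zz m' e')) = 2 := by rw [← h4, φ.apply_symm_apply, dz]
    obtain ⟨a, b, c, f1, -⟩ := dg_le (w := φ.symm (zz m' e')) h.le
    rw [AlgEquiv.symm_apply_eq] at f1
    simp only [map_add, map_mul, hσ, e1, e3] at f1
    refine IsUnit.of_mul_eq_one (σ a) (comb_eq (m := m') (e := e') (b := σ a * δ + σ b * α)
      (b' := 0) (c := σ a * η + σ b * β + σ c) (c' := 0) ?_).1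
    simp only [map_add, map_mul, map_zero, map_one]
    linear_combination -f1

theorem unit_sq {α : (LaurentPolynomial K)} (h : IsUnit α) : ∃ c : K, ∀ (τ : K) (hτ : IsUnit τ), τ ^ 2 = 1 →
    evL hτ α ^ 2 * c = 1 := by
  obtain ⟨β, hβ⟩ := h.exists_right_inv
  obtain ⟨n, f, hf⟩ := LaurentPolynomial.exists_T_pow α
  obtain ⟨l, g, hg⟩ := LaurentPolynomial.exists_T_pow β
  have h1 : f * g = X ^ (n + l) := by
    apply toLaurent_injective
    rw [map_mul, hf, hg, toLaurent_X_pow, Nat.cast_add, LaurentPolynomial.T_add]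
    linear_combination (LaurentPolynomial.T n * LaurentPolynomial.T l : (LaurentPolynomial K)) * hβ
  obtain ⟨i, -, u, hu⟩ := (dvd_prime_pow prime_X _).1 ⟨g, h1.symm⟩
  obtain ⟨c, -, hc⟩ := Polynomial.isUnit_iff.1 u.isUnit
  refine ⟨c ^ 2, fun τ hτ h2 => ?_⟩
  have h3 := congrArg (evL hτ) hf
  have h4 := congrArg (eval τ) hu
  rw [← hc] at h4
  simp only [evL, map_mul, LaurentPolynomial.eval₂_toLaurent, LaurentPolynomial.eval₂_T_n,
    IsUnit.unit_spec, Algebra.algebraMap_self, eval₂_id] at h3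
  simp only [eval_mul, eval_C, eval_pow, eval_X, h3] at h4
  have h5 := congrArg (· ^ 2) h4
  simp only [mul_pow, ← pow_mul, mul_comm _ 2] at h5
  simpa [pow_mul, h2, evL] using h5

theorem finT (m e : (LaurentPolynomial K)) : Algebra.FiniteType K (Q m e) :=
  Algebra.FiniteType.trans (S := (LaurentPolynomial K)[X]) inferInstance inferInstance

end Pool.Agent.H.MP_340332_ag
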