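import Pool.Agent.H.MP_340332_ag.C

namespace Pool.Agent.H.MP_340332_ag
open Polynomial

section
variable {R : Type*} [CommRing R] [IsDomain R] {m e : R} {K : Type*} [Field K] [Algebra K R]

omit [IsDomain R] in
theorem D_rel (D : Derivation K (Q m e) (Q m e)) (h0 : ∀ r : R, D (algebraMap R _ r) = 0) :
    2 * yy m e * D (yy m e) = algebraMap R _ m * D (zz m e) := by
  have := congrArg D (rel (m := m) (e := e))
  simp only [map_add, Derivation.leibniz, smul_eq_mul, h0] at this
  linear_combination this

theorem iota_D (hm : m ≠ 0) (D : Derivation K (Q m e) (Q m e))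
    (h0 : ∀ r : R, D (algebraMap R _ r) = 0) (w : Q m e) :
    iota e hm (D w) = derivative (iota e hm w) * iota e hm (D (yy m e)) := by
  refine Q_ind (p := fun w => iota e hm (D w) = derivative (iota e hm w) * iota e hm (D (yy m e)))
    (fun r => ?_) ?_ ?_ (fun a b h1 h2 => ?_) (fun a b h1 h2 => ?_) w
  · rw [h0, iota_alg, map_zero, derivative_C, zero_mul]
  · rw [iota_y, derivative_X, one_mul]
  · have h1 := congrArg (iota e hm) (D_rel D h0)
    have h2 := congrArg (fun w => derivative (iota e hm w)) (rel (m := m) (e := e))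
    simp only [map_mul, map_add, iota_y, iota_alg, map_ofNat, derivative_mul, derivative_X,
      derivative_C] at h1 h2
    apply mul_left_cancel₀ (a := C (algebraMap R (FractionRing R) m)) (by simpa using hm)
    linear_combination iota e hm (D (yy m e)) * h2 - h1
  · simp only [map_add, h1, h2]; ring
  · simp only [Derivation.leibniz, smul_eq_mul, map_add, map_mul, h1, h2, derivative_mul]; ring

theorem nonrigid (hm : m ≠ 0) : ∃ D : Derivation K (Q m e) (Q m e), IsLND D ∧ D ≠ 0 := by
  have h0 : ∀ w : Q m e, (th m e 1 1 (C w)).coeff 0 = w := by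
    refine Q_ind (fun r => ?_) ?_ ?_ (fun a b h1 h2 => ?_) fun a b h1 h2 => ?_
    · rw [← Polynomial.algebraMap_apply, AlgHom.commutes, Polynomial.algebraMap_apply, coeff_C_zero]
    · rw [th_y]; simp only [coeff_add, mul_coeff_zero, coeff_C_zero, pow_one, coeff_X_zero,
        mul_zero, add_zero]
    · rw [th_z]; simp only [coeff_add, mul_coeff_zero, coeff_C_zero, pow_one, coeff_X_zero,
        mul_zero, add_zero, sq]
    · simp only [map_add, coeff_add, h1, h2]
    · simp only [map_mul, mul_coeff_zero, h1, h2]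
  let l : Q m e →ₗ[K] Q m e := ((lcoeff (Q m e) 1).restrictScalars K) ∘ₗ
    ((th m e 1 1).restrictScalars K).toLinearMap ∘ₗ (CAlgHom (R := K) (A := Q m e)).toLinearMap
  have hl : ∀ w, l w = (th m e 1 1 (C w)).coeff 1 := fun w => rfl
  let D : Derivation K (Q m e) (Q m e) := Derivation.mk' l fun a b => by
    rw [hl, hl, hl, map_mul, map_mul, mul_coeff_one, h0, h0, smul_eq_mul, smul_eq_mul]; ring
  have hD : ∀ w, D w = (th m e 1 1 (C w)).coeff 1 := fun w => rfl
  have h1 : ∀ r : R, D (algebraMap R _ r) = 0 := fun r => by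
    rw [hD, ← Polynomial.algebraMap_apply, AlgHom.commutes, Polynomial.algebraMap_apply,
      coeff_C_succ]
  have h2 : D (yy m e) = algebraMap R _ m := by
    rw [hD, th_y, Polynomial.algebraMap_apply, Int.cast_one, one_mul, coeff_add, coeff_C_succ,
      coeff_C_mul, pow_one, coeff_X_one, mul_one, zero_add]
  refine ⟨D, fun w => ⟨(iota e hm w).natDegree + 1, iota_inj hm ?_⟩, fun h => ?_⟩
  · have : ∀ n : ℕ, iota e hm ((⇑D)^[n] w) = (⇑derivative)^[n] (iota e hm w) *
        C (algebraMap R _ m) ^ n := by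
      intro n
      induction n with
      | zero => simp
      | succ n ih =>
        rw [Function.iterate_succ_apply', Function.iterate_succ_apply', iota_D hm D h1, ih, h2,
          iota_alg, ← C_pow, derivative_mul, derivative_C, C_pow]; ring
    rw [this, iterate_derivative_eq_zero (Nat.lt_succ_self _), zero_mul, map_zero]
  · rw [h] at h2
    exact hm (by simpa [alg_eq] using congrArg QuadraticAlgebra.re h2.symm)

theorem psi_mem (K : Type*) [Field K] [Algebra K R] {a x c : R} (hm0 : m ≠ 0) (hm : m = a * x ^ 2) (he : e = a * x * c)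
    (A Z Y U V G x' c' : (Q m e)[X]) (hA : A = algebraMap R _ a) (hx : x' = algebraMap R _ x)
    (hc : c' = algebraMap R _ c) (hZ : Z = C (zz m e)) (hY : Y = C (yy m e)) (hU : U = X)
    (hV : V = Y - A * x' * U) (hG : G = (Z + A * U ^ 2) * V - 2 * A * U * (c' + x' * Z - Y * U)) :
    Z + 2 * A * (c' + x' * Z - Y * U) * G + A * V ^ 2 * G ^ 2 ∈ HD K (Q m e)[X] := by
  have := dom (e := e) hm0
  have e1 : algebraMap R (Q m e)[X] m = A * x' ^ 2 := by
    rw [hA, hx, ← map_pow, ← map_mul, ← hm]
  have e2 : algebraMap R (Q m e)[X] e = A * x' * c' := by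
    rw [hA, hx, hc, ← map_mul, ← map_mul, ← he]
  have r0 : Y * Y = A * x' ^ 2 * Z + A * x' * c' := by rw [hY, hZ, relP, e1, e2]
  let ψ : ℤ → (Q m e)[X] →ₐ[R] (Q m e)[X] := fun s =>
    mkA (Y + s * A * x' * V * G) (Z + 2 * s * A * (c' + x' * Z - Y * U) * G +
      s ^ 2 * A * V ^ 2 * G ^ 2) (U + s * V * G) (by
        rw [e1, e2, hV]; linear_combination (1 + 2 * s * A * x' * G) * r0)
  have y1 : ∀ s : ℤ, ψ s Y = Y + s * A * x' * V * G := fun s => by
    conv_lhs => rw [hY]
    exact mkA_y _ _ _ _
  have u1 : ∀ s : ℤ, ψ s U = U + s * V * G := fun s => by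
    conv_lhs => rw [hU]
    exact mkA_u _ _ _ _
  have a1 : ∀ s, ψ s A = A := fun s => by rw [hA, AlgHom.commutes]
  have x1 : ∀ s, ψ s x' = x' := fun s => by rw [hx, AlgHom.commutes]
  have c1 : ∀ s, ψ s c' = c' := fun s => by rw [hc, AlgHom.commutes]
  have v1 : ∀ s, ψ s V = V := fun s => by
    conv_lhs => rw [hV]
    simp only [map_sub, map_mul, y1, u1, a1, x1]
    linear_combination -hV
  have g0 : A * x' ^ 2 * G = (V ^ 2 - A * x' * c') * V := by
    rw [hG, hV]; linear_combination (3 * A * x' * U - Y) * r0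
  have g1 : ∀ s, ψ s G = G := fun s => by
    have := congrArg (ψ s) g0
    simp only [map_sub, map_mul, map_pow, a1, x1, c1, v1] at this
    apply mul_left_cancel₀ (e1 ▸ alg_ne hm0)
    rw [this, g0]
  have h : ∀ s s' : ℤ, s + s' = 0 → (ψ s).comp (ψ s') = AlgHom.id _ _ := by
    intro s s' hs
    have hs' : (s : (Q m e)[X]) + s' = 0 := by
      exact_mod_cast congrArg (Int.cast (R := (Q m e)[X])) hs
    refine A_ext (alg_ne hm0) ?_ ?_
    · simp only [AlgHom.comp_apply, AlgHom.id_apply, ← hY, y1, map_add, map_mul, map_intCast, a1,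
        x1, v1, g1]
      linear_combination (A * x' * V * G) * hs'
    · simp only [AlgHom.comp_apply, AlgHom.id_apply, ← hU, u1, map_add, map_mul, map_intCast,
        v1, g1]
      linear_combination (V * G) * hs'
  have h2 := map_mem_HD ((AlgEquiv.ofAlgHom (ψ 1) (ψ (-1)) (h _ _ (by simp))
    (h _ _ (by simp))).restrictScalars K) (C_mem_HD (zz m e))
  have h3 : ψ 1 (C (zz m e)) = _ := mkA_z _ _ _ _
  change ψ 1 _ ∈ _ at h2
  rw [h3] at h2
  simpa only [Int.cast_one, mul_one, one_pow, one_mul] using h2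

end

variable {K : Type*} [Field K] [CharZero K]


theorem imI_le {m e : (LaurentPolynomial K)} (hm : m ≠ 0) (π : Q m e →+* K) (h1 : π (algebraMap (LaurentPolynomial K) _ m) = 0)
    (h2 : π (yy m e) = 0) : imI K (Q m e) ≤ RingHom.ker π := by
  have := dom (e := e) hm
  have : CharZero (LaurentPolynomial K) := charZero_of_injective_algebraMap (algebraMap K (LaurentPolynomial K)).injective
  have : CharZero (FractionRing (LaurentPolynomial K)) := IsFractionRing.charZero_of_isFractionRing (LaurentPolynomial K)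
  rw [imI, Ideal.span_le]
  rintro _ ⟨D, hD, w, rfl⟩
  have t1 := congrArg (algebraMap (LaurentPolynomial K) (Q m e)) TT
  rw [map_mul, map_one] at t1
  have h0 : ∀ r : (LaurentPolynomial K), D (algebraMap (LaurentPolynomial K) _ r) = 0 :=
    L_ind (fun k => by rw [alg_C, D.map_algebraMap]) (hD.unit t1)
      (hD.unit (by rw [mul_comm]; exact t1)) (fun a b h1 h2 => by simp only [map_add, h1, h2, add_zero])
      fun a b h1 h2 => by simp only [map_mul, Derivation.leibniz, h1, h2, smul_zero, add_zero]
  have h3 : dg (D (yy m e)) = 0 := by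
    by_contra h
    rw [← iota_deg hm] at h
    have : ∀ n : ℕ, (iota e hm ((⇑D)^[n] (yy m e))).natDegree ≠ 0 := by
      intro n
      induction n with
      | zero => simp [iota_y]
      | succ n ih =>
        rw [Function.iterate_succ_apply', iota_D hm D h0, natDegree_mul
          (fun h => ih (derivative_eq_zero.1 h)) (fun h' => h (by simp [h']))]
        omega
    obtain ⟨n, hn⟩ := hD (yy m e)
    exact this n (by simp [hn])
  obtain ⟨a, b, r, e1, e2, e3⟩ := dg_le (w := D (yy m e)) (by omega)
  rw [e2 (by omega), e3 h3, map_zero, zero_mul, zero_mul, zero_add, zero_add] at e1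
  have h4 := D_rel D h0
  rw [e1] at h4
  have h5 : D (zz m e) = algebraMap (LaurentPolynomial K)[X] _ (D (zz m e)).im * yy m e := by
    rw [two_mul, add_mul] at h4
    have := congrArg QuadraticAlgebra.re h4
    ext1
    · simpa [alg_eq, yy_eq, hm] using this.symm
    · simp [yy_eq]
  have h6 : π (D (yy m e)) = 0 := by
    rw [h5, mul_assoc, mul_comm (yy m e), ← mul_assoc, ← mul_assoc] at h4
    have := congrArg π (mul_right_cancel₀ (by simp [yy_eq, QuadraticAlgebra.ext_iff]) h4)
    rw [map_mul, map_mul, h1, zero_mul, map_ofNat, ← e1] at this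
    simpa using this
  have h7 : π (D (zz m e)) = 0 := by rw [h5, map_mul, h2, mul_zero]
  refine Q_ind (p := fun w => π (D w) = 0) (fun r => by simp [h0]) h6 h7 (fun a b h1 h2 => ?_)
    (fun a b h1 h2 => ?_) w
  · simp only [map_add, h1, h2, add_zero]
  · simp only [Derivation.leibniz, smul_eq_mul, map_add, map_mul, h1, h2, mul_zero, add_zero]

end Pool.Agent.H.MP_340332_ag
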